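import Pool.Agent.H.MP_58cc54_co.Game

set_option autoImplicit false

namespace Pool.Agent.H.MP_fe1fea_co

open Finset Pool.Agent.H.MP_58cc54_co

variable {n : ℕ}

def Adjt (A : Finset (Sym2 (Fin n))) (e : Sym2 (Fin n)) : Prop :=
  ∃ x y t : Fin n, e = s(x, y) ∧ s(x, t) ∈ A

def Won (A : Finset (Sym2 (Fin n))) : Prop :=
  ∃ u v w : Fin n, u ≠ v ∧ s(u, w) ∈ A ∧ s(v, w) ∈ A

lemma Adjt.mono {A : Finset (Sym2 (Fin n))} {e : Sym2 (Fin n)} (h : Adjt A e) (f : Sym2 (Fin n)) :
    Adjt (insert f A) e := by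
  obtain ⟨x, y, t, h1, h2⟩ := h
  exact ⟨x, y, t, h1, mem_insert_of_mem h2⟩

lemma Won.mono {A : Finset (Sym2 (Fin n))} (h : Won A) (f : Sym2 (Fin n)) : Won (insert f A) := by
  obtain ⟨u, v, w, h1, h2, h3⟩ := h
  exact ⟨u, v, w, h1, mem_insert_of_mem h2, mem_insert_of_mem h3⟩

lemma Adjt.won {A : Finset (Sym2 (Fin n))} {e : Sym2 (Fin n)} (h : Adjt A e) (he : e ∉ A) :
    Won (insert e A) := by
  obtain ⟨x, y, t, rfl, h2⟩ := h
  refine ⟨y, t, x, ?_, ?_, mem_insert_of_mem (Sym2.eq_swap ▸ h2)⟩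
  · rintro rfl
    exact he h2
  · rw [Sym2.eq_swap]
    exact mem_insert_self _ _

lemma card_pairs (U V : Finset (Fin n)) (h : Disjoint U V) :
    ((U ×ˢ V).image fun p => s(p.1, p.2)).card = U.card * V.card := by
  rw [card_image_of_injOn, card_product]
  rintro ⟨a, b⟩ hab ⟨c, d⟩ hcd e
  simp only [coe_product, Set.mem_prod, mem_coe] at hab hcd
  rcases Sym2.eq_iff.mp e with ⟨h1, h2⟩ | ⟨h1, h2⟩
  · exact Prod.ext h1 h2
  · have h3 : a = d := h1
    exact absurd (h3 ▸ hcd.2 : a ∈ V) (disjoint_left.mp h hab.1)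

lemma free_step (E A B T : Finset (Sym2 (Fin n))) (e : Sym2 (Fin n)) :
    E \ (insert e A ∪ (B ∪ T)) = (E \ insert e (A ∪ B)) \ T := by
  rw [sdiff_sdiff_left, sup_eq_union, insert_union, insert_union, union_assoc]

/-- Enforcer's strategy in the strict game of the path with two edges -/
lemma enf (E : Finset (Sym2 (Fin n))) (hE : ∀ x y : Fin n, s(x, y) ∈ E ↔ x ≠ y) (k b j1 : ℕ)
    (hk : 4 * k ≤ n) (h1 : j1 * (b + 1) ≤ k * k) (h2 : b + 1 ≤ j1 * k) (h3 : 2 * j1 ≤ k) :
    ∃ S : Set (Finset (Sym2 (Fin n)) × Finset (Sym2 (Fin n))), (∅, ∅) ∈ S ∧ ∀ p ∈ S,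
      (E \ (p.1 ∪ p.2) = ∅ → p.1 ⊆ E ∧ Won p.1) ∧
      ∀ e ∈ E \ (p.1 ∪ p.2), ∃ T : Finset (Sym2 (Fin n)), T ⊆ E \ (insert e (p.1 ∪ p.2)) ∧
        T.card = min b (E \ (insert e (p.1 ∪ p.2))).card ∧ (insert e p.1, p.2 ∪ T) ∈ S := by
  obtain ⟨Q1, _, hQ1⟩ := exists_subset_card_eq (s := (univ : Finset (Fin n))) (n := k)
    (by rw [card_univ, Fintype.card_fin]; omega)
  obtain ⟨Q2, hQ2s, hQ2⟩ := exists_subset_card_eq (s := (univ : Finset (Fin n)) \ Q1) (n := k)
    (by rw [card_sdiff_of_subset (subset_univ _), card_univ, Fintype.card_fin]; omega)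
  obtain ⟨R, hRs, hR⟩ := exists_subset_card_eq (s := (univ : Finset (Fin n)) \ (Q1 ∪ Q2))
    (n := 2 * k) (by
      rw [card_sdiff_of_subset (subset_univ _), card_univ, Fintype.card_fin]
      have := card_union_le Q1 Q2
      omega)
  have hd : Disjoint Q1 Q2 := disjoint_left.mpr fun a ha hb => (mem_sdiff.mp (hQ2s hb)).2 ha
  obtain ⟨D, hD⟩ : ∃ D, D = (Q1 ×ˢ Q2).image fun p => s(p.1, p.2) := ⟨_, rfl⟩
  have hDc : D.card = k * k := by rw [hD, card_pairs _ _ hd, hQ1, hQ2]
  have hDE : D ⊆ E := by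
    intro e he
    rw [hD] at he
    obtain ⟨⟨a, c⟩, hac, rfl⟩ := mem_image.mp he
    refine (hE a c).mpr ?_
    rintro rfl
    exact disjoint_left.mp hd (mem_product.mp hac).1 (mem_product.mp hac).2
  have hDR : ∀ x y, y ∈ R → s(x, y) ∉ D := by
    intro x y hy he
    rw [hD] at he
    obtain ⟨⟨a, c⟩, hac, h⟩ := mem_image.mp he
    have := (mem_sdiff.mp (hRs hy)).2
    rcases Sym2.eq_iff.mp h with ⟨_, rfl⟩ | ⟨rfl, _⟩
    · exact this (mem_union_right _ (mem_product.mp hac).2)
    · exact this (mem_union_left _ (mem_product.mp hac).1)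
  have hj1 : 0 < j1 := by
    rcases Nat.eq_zero_or_pos j1 with rfl | h
    · omega
    · exact h
  refine ⟨{p | p.1 ⊆ E ∧ (Won p.1 ∨
    (∃ P ⊆ E \ (p.1 ∪ p.2), b + 1 ≤ P.card ∧ ∀ e ∈ P, Adjt p.1 e) ∨
    (E \ (p.1 ∪ p.2) ≠ ∅ ∧ ∀ e ∈ E \ (p.1 ∪ p.2), Adjt p.1 e) ∨
    ∃ j < j1, ∃ U : Finset (Fin n), U.card = j ∧ (∀ x ∈ U, ∃ t, s(x, t) ∈ p.1) ∧ p.1.card ≤ j ∧
      p.2 ⊆ D ∧ p.2.card ≤ j * b)}, ⟨empty_subset _, Or.inr (Or.inr (Or.inr
        ⟨0, hj1, ∅, rfl, by simp, by simp, empty_subset _, by simp⟩))⟩, ?_⟩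
  rintro ⟨A, B⟩ ⟨hA, hp⟩
  simp only at hA hp ⊢
  constructor
  · intro h0
    refine ⟨hA, ?_⟩
    rcases hp with hp | ⟨P, p1, p2, _⟩ | ⟨p1, _⟩ | ⟨j, hj, U, _, _, p3, p4, p5⟩
    · exact hp
    · rw [h0] at p1
      have := card_le_card p1
      simp only [card_empty] at this
      omega
    · exact absurd h0 p1
    · have a1 := card_le_card (hDE.trans (sdiff_eq_empty_iff_subset.mp h0))
      have a2 := card_union_le A B
      have a3 : (j + 1) * (b + 1) ≤ j1 * (b + 1) := Nat.mul_le_mul_right _ hj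
      have a4 : (j + 1) * (b + 1) = j * b + j + b + 1 := by ring
      omega
  · intro e he
    have heE : e ∈ E := (mem_sdiff.mp he).1
    have heA : e ∉ A := fun h => (mem_sdiff.mp he).2 (mem_union_left _ h)
    have hA' : insert e A ⊆ E := insert_subset heE hA
    by_cases hw : Won (insert e A)
    · obtain ⟨T, t1, t2⟩ := exists_subset_card_eq (s := E \ insert e (A ∪ B))
        (n := min b (E \ insert e (A ∪ B)).card) (min_le_right _ _)
      exact ⟨T, t1, t2, hA', Or.inl hw⟩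
    have hna : ¬ Adjt A e := fun h => hw (h.won heA)
    rcases hp with hp | ⟨P, p1, p2, p3⟩ | ⟨_, p2⟩ | ⟨j, hj, U, p1, p2, p3, p4, p5⟩
    · exact absurd (hp.mono e) hw
    · have a1 : P ⊆ E \ insert e (A ∪ B) := by
        intro f hf
        rw [sdiff_insert]
        refine mem_erase.mpr ⟨?_, p1 hf⟩
        rintro rfl
        exact hna (p3 _ hf)
      have a2 := card_le_card a1
      by_cases hb : b ≤ ((E \ insert e (A ∪ B)) \ P).card
      · obtain ⟨T, t1, t2⟩ := exists_subset_card_eq hb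
        refine ⟨T, t1.trans sdiff_subset, by omega, hA', Or.inr (Or.inl ⟨P, ?_, p2,
          fun f hf => (p3 f hf).mono e⟩)⟩
        show P ⊆ E \ (insert e A ∪ (B ∪ T))
        rw [free_step]
        exact fun f hf => mem_sdiff.mpr ⟨a1 hf, fun hT => (mem_sdiff.mp (t1 hT)).2 hf⟩
      · obtain ⟨T, t1, t2, t3⟩ := exists_subsuperset_card_eq (n := b)
          (sdiff_subset (s := E \ insert e (A ∪ B)) (t := P)) (by omega) (by omega)
        refine ⟨T, t2, by omega, hA', Or.inr (Or.inr (Or.inl ?_))⟩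
        show E \ (insert e A ∪ (B ∪ T)) ≠ ∅ ∧ ∀ f ∈ E \ (insert e A ∪ (B ∪ T)), Adjt (insert e A) f
        rw [free_step]
        constructor
        · intro h0
          have := card_le_card (sdiff_eq_empty_iff_subset.mp h0)
          omega
        · intro f hf
          refine (p3 f ?_).mono e
          by_contra hP
          exact (mem_sdiff.mp hf).2 (t1 (mem_sdiff.mpr ⟨(mem_sdiff.mp hf).1, hP⟩))
    · exact absurd (p2 e he) hna
    · have a1 : b ≤ (D \ insert e (A ∪ B)).card := by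
        have b1 := le_card_sdiff (insert e (A ∪ B)) D
        have b2 := card_insert_le e (A ∪ B)
        have b3 := card_union_le A B
        have a3 : (j + 1) * (b + 1) ≤ j1 * (b + 1) := Nat.mul_le_mul_right _ hj
        have a4 : (j + 1) * (b + 1) = j * b + j + b + 1 := by ring
        omega
      obtain ⟨T, t1, t2⟩ := exists_subset_card_eq a1
      have t3 : T ⊆ E \ insert e (A ∪ B) := t1.trans (sdiff_subset_sdiff hDE subset_rfl)
      have t4 := card_le_card t3
      have t5 : B ∪ T ⊆ D := union_subset p4 (t1.trans sdiff_subset)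
      induction e using Sym2.ind with
      | _ x y =>
        have hx : x ∉ U := fun h => by
          obtain ⟨t, ht⟩ := p2 x h
          exact hna ⟨x, y, t, rfl, ht⟩
        have u1 : (insert x U).card = j + 1 := by rw [card_insert_of_notMem hx, p1]
        have u2 : ∀ z ∈ insert x U, ∃ t, s(z, t) ∈ insert s(x, y) A := by
          intro z hz
          rcases mem_insert.mp hz with rfl | hz
          · exact ⟨y, mem_insert_self _ _⟩
          · obtain ⟨t, ht⟩ := p2 z hz
            exact ⟨t, mem_insert_of_mem ht⟩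
        have u3 : (insert s(x, y) A).card ≤ j + 1 := (card_insert_le _ _).trans (by omega)
        refine ⟨T, t3, by omega, hA', ?_⟩
        by_cases hj' : j + 1 < j1
        · refine Or.inr (Or.inr (Or.inr ⟨j + 1, hj', insert x U, u1, u2, u3, t5, ?_⟩))
          have := card_union_le B T
          have e : (j + 1) * b = j * b + b := by ring
          show (B ∪ T).card ≤ _
          omega
        · obtain ⟨Ut, v1, v2⟩ := exists_touched (insert s(x, y) A)
          have hdis : Disjoint (insert x U) (R \ Ut) := disjoint_left.mpr fun z hz hz' => by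
            obtain ⟨t, ht⟩ := u2 z hz
            exact (mem_sdiff.mp hz').2 (v2 z t ht)
          refine Or.inr (Or.inl ⟨((insert x U) ×ˢ (R \ Ut)).image fun p => s(p.1, p.2), ?_, ?_, ?_⟩)
          · intro f hf
            obtain ⟨⟨a, c⟩, hac, rfl⟩ := mem_image.mp hf
            obtain ⟨c1, c2⟩ := mem_product.mp hac
            refine mem_sdiff.mpr ⟨(hE a c).mpr ?_, fun h => ?_⟩
            · rintro rfl
              exact disjoint_left.mp hdis c1 c2
            · rcases mem_union.mp h with h | h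
              · refine (mem_sdiff.mp c2).2 (v2 c a ?_)
                rw [show s(c, a) = s(a, c) from Sym2.eq_swap]
                exact h
              · exact hDR a c (mem_sdiff.mp c2).1 (t5 h)
          · rw [card_pairs _ _ hdis, u1]
            have w1 := le_card_sdiff Ut R
            have w2 : k ≤ (R \ Ut).card := by omega
            have w3 : j + 1 = j1 := by omega
            rw [w3]
            exact h2.trans (Nat.mul_le_mul_left _ w2)
          · intro f hf
            obtain ⟨⟨a, c⟩, hac, rfl⟩ := mem_image.mp hf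
            obtain ⟨t, ht⟩ := u2 a (mem_product.mp hac).1
            exact ⟨a, c, t, rfl, ht⟩

end Pool.Agent.H.MP_fe1fea_co
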